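import Mathlib

set_option autoImplicit false

namespace Pool.Agent.RTN14

open Subgroup
open scoped commutatorElement

universe u v

/-- Torsion-free: no nontrivial element has finite order. -/
def TF (H : Type u) [Group H] : Prop := ∀ h : H, ∀ n : ℕ, 0 < n → h ^ n = 1 → h = 1

theorem comm_pow_left {G : Type u} [Group G] {a b : G}
    (h : ∀ x : G, x * ⁅a, b⁆ = ⁅a, b⁆ * x) (n : ℕ) : ⁅a ^ n, b⁆ = ⁅a, b⁆ ^ n := by
  induction n with
  | zero => simp
  | succ n ih =>
    rw [pow_succ, commutatorElement_mul_left_eq_conj_mul, ih, h, mul_inv_cancel_right, pow_succ']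

theorem comm_pow_right {G : Type u} [Group G] {a b : G}
    (h : ∀ x : G, x * ⁅a, b⁆ = ⁅a, b⁆ * x) (n : ℕ) : ⁅a, b ^ n⁆ = ⁅a, b⁆ ^ n := by
  have h' : ∀ x : G, x * ⁅b, a⁆ = ⁅b, a⁆ * x := by
    intro x
    rw [← commutatorElement_inv a b]
    have := h x⁻¹
    have h2 := congrArg (fun y => y⁻¹) this
    simp only [mul_inv_rev, inv_inv] at h2
    exact h2.symm
  have := comm_pow_left h' n
  rw [← commutatorElement_inv, this, ← inv_pow, commutatorElement_inv]

/-- if the center is torsion-free then so is the center of the quotient by the center -/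
theorem tf_center_step {G : Type u} [Group G]
    (h : ∀ z ∈ center G, ∀ n : ℕ, 0 < n → z ^ n = 1 → z = 1) :
    ∀ z ∈ center (G ⧸ center G), ∀ n : ℕ, 0 < n → z ^ n = 1 → z = 1 := by
  intro z hz n hn hzn
  obtain ⟨g, rfl⟩ := QuotientGroup.mk_surjective z
  have hgn : g ^ n ∈ center G := by
    rw [← QuotientGroup.mk_pow, QuotientGroup.eq_one_iff] at hzn
    exact hzn
  rw [QuotientGroup.eq_one_iff]
  rw [mem_center_iff]
  intro x
  have hc : ⁅g, x⁆ ∈ center G := by
    rw [← QuotientGroup.eq_one_iff]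
    have h1 : ((⁅g, x⁆ : G) : G ⧸ center G) = ⁅(g : G ⧸ center G), (x : G ⧸ center G)⁆ := by
      exact map_commutatorElement (QuotientGroup.mk' (center G)) g x
    rw [h1, commutatorElement_eq_one_iff_mul_comm]
    exact ((mem_center_iff.mp hz) _).symm
  have h2 : ⁅g ^ n, x⁆ = ⁅g, x⁆ ^ n := comm_pow_left (fun y => (mem_center_iff.mp hc) y) n
  have h3 : ⁅g ^ n, x⁆ = 1 := by
    rw [commutatorElement_eq_one_iff_mul_comm]
    exact ((mem_center_iff.mp hgn) x).symm
  have h4 := h _ hc n hn (h2 ▸ h3)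
  rw [commutatorElement_eq_one_iff_mul_comm] at h4
  exact h4.symm

theorem tf_of_center (G : Type u) [Group G] [Group.IsNilpotent G] :
    (∀ z ∈ center G, ∀ n : ℕ, 0 < n → z ^ n = 1 → z = 1) → TF G := by
  refine Group.nilpotent_center_quotient_ind
    (P := fun G _ _ => (∀ z ∈ center G, ∀ n : ℕ, 0 < n → z ^ n = 1 → z = 1) → TF G) G ?_ ?_
  · intro G _ _ _ h n _ _; exact Subsingleton.elim _ _
  · intro G _ _ ih h g n hn hg
    have h1 : TF (G ⧸ center G) := ih (tf_center_step h)
    have h2 : ((g : G) : G ⧸ center G) = 1 := by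
      apply h1 _ n hn
      rw [← QuotientGroup.mk_pow, hg, QuotientGroup.mk_one]
    exact h g ((QuotientGroup.eq_one_iff g).mp h2) n hn hg

theorem tf_quot_center {G : Type u} [Group G] [Group.IsNilpotent G] (h : TF G) :
    TF (G ⧸ center G) :=
  tf_of_center _ (tf_center_step (fun z _ n hn hz => h z n hn hz))

/-- unique roots in torsion-free nilpotent groups -/
theorem uroot (G : Type u) [Group G] [Group.IsNilpotent G] :
    TF G → ∀ a b : G, ∀ n : ℕ, 0 < n → a ^ n = b ^ n → a = b := by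
  refine Group.nilpotent_center_quotient_ind
    (P := fun G _ _ => TF G → ∀ a b : G, ∀ n : ℕ, 0 < n → a ^ n = b ^ n → a = b) G ?_ ?_
  · intro G _ _ _ a b n _ _; exact Subsingleton.elim _ _
  · intro G _ _ ih h a b n hn hab
    have h1 : ((a : G) : G ⧸ center G) = (b : G ⧸ center G) := by
      apply ih (tf_quot_center h) _ _ n hn
      rw [← QuotientGroup.mk_pow, hab, QuotientGroup.mk_pow]
    have h2 : a⁻¹ * b ∈ center G := QuotientGroup.eq.mp h1
    obtain ⟨z, hz⟩ : ∃ z, z = a⁻¹ * b := ⟨_, rfl⟩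
    have hb : b = a * z := by rw [hz]; group
    have hzc : Commute a z := by
      rw [hz]; exact (mem_center_iff.mp h2 a)
    have h3 : a ^ n = a ^ n * z ^ n := by
      rw [← hzc.mul_pow, ← hb]; exact hab
    have h4 : z ^ n = 1 := by
      exact (mul_eq_left.mp h3.symm)
    have h5 := h z n hn h4
    rw [hb, h5, mul_one]

theorem center_isolated {G : Type u} [Group G] [Group.IsNilpotent G] (h : TF G) {z : G} {n : ℕ}
    (hn : 0 < n) (hz : z ^ n ∈ center G) : z ∈ center G := by
  rw [mem_center_iff]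
  intro g
  have h1 : (g * z * g⁻¹) ^ n = z ^ n := by
    rw [conj_pow, (mem_center_iff.mp hz g), mul_inv_cancel_right]
  have h2 := uroot G h _ _ n hn h1
  calc g * z = g * z * g⁻¹ * g := by group
    _ = z * g := by rw [h2]

/-- a term of the lower central series commutes with the derived subgroup up to two steps -/
theorem lcs_comm_derived {G : Type u} [Group G] (r : ℕ)
    (hb : (⊤ : Subgroup G).lowerCentralSeries (r + 2) = ⊥) :
    ⁅(⊤ : Subgroup G).lowerCentralSeries r, commutator G⁆ = ⊥ := by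
  rw [commutator_comm, commutator_def]
  have h1 : ⁅⁅(⊤ : Subgroup G), (⊤ : Subgroup G).lowerCentralSeries r⁆, (⊤ : Subgroup G)⁆ = ⊥ := by
    rw [commutator_comm (⊤ : Subgroup G) ((⊤ : Subgroup G).lowerCentralSeries r)]
    exact hb
  have h2 : ⁅⁅(⊤ : Subgroup G).lowerCentralSeries r, (⊤ : Subgroup G)⁆, (⊤ : Subgroup G)⁆ = ⊥ := hb
  exact commutator_commutator_eq_bot_of_rotate h1 h2

end Pool.Agent.RTN14
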