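import Pool.Agent.RTN14.Basic

set_option autoImplicit false

namespace Pool.Agent.RTN14

open Subgroup
open scoped commutatorElement

universe u v

theorem map_lcs_mem {G : Type u} {K : Type v} [Group G] [Group K] (f : G →* K) (n : ℕ) {z : G}
    (hz : z ∈ (⊤ : Subgroup G).lowerCentralSeries n) :
    f z ∈ (⊤ : Subgroup K).lowerCentralSeries n :=
  (by
    rw [Subgroup.map_lowerCentralSeries]
    exact lowerCentralSeries_mono n le_top : ((⊤ : Subgroup G).lowerCentralSeries n).map f ≤ _)
    (mem_map_of_mem f hz)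

theorem lcs_le_center {Q : Type v} [Group Q] {n : ℕ}
    (h : (⊤ : Subgroup Q).lowerCentralSeries (n + 1) = ⊥) :
    (⊤ : Subgroup Q).lowerCentralSeries n ≤ center Q :=
  commutator_top_right_eq_bot_iff_le_center.mp h

theorem lcs_quot {Q : Type v} [Group Q] (N : Subgroup Q) [N.Normal] {n : ℕ}
    (h : (⊤ : Subgroup Q).lowerCentralSeries n ≤ N) :
    (⊤ : Subgroup (Q ⧸ N)).lowerCentralSeries n = ⊥ := by
  rw [eq_bot_iff]
  have h1 : (⊤ : Subgroup (Q ⧸ N)) = (⊤ : Subgroup Q).map (QuotientGroup.mk' N) :=
    (map_top_of_surjective _ (QuotientGroup.mk'_surjective N)).symm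
  rw [h1, ← map_lowerCentralSeries]
  rintro _ ⟨x, hx, rfl⟩
  have := h hx
  rw [mem_bot]
  exact (QuotientGroup.eq_one_iff x).mpr this

/-- Two homomorphisms with `φ g ≡ φ' g ^ m` modulo commutators satisfy
`φ z = φ' z ^ (m ^ (r + 1))` on the last term of the lower central series. -/
theorem graded (m : ℕ) : ∀ (r : ℕ) (Q : Type v) [Group Q] (P : Type u) [Group P]
    (φ φ' : P →* Q), (⊤ : Subgroup Q).lowerCentralSeries (r + 1) = ⊥ →
    (∀ g, φ g * (φ' g ^ m)⁻¹ ∈ commutator Q) →
    ∀ z ∈ (⊤ : Subgroup P).lowerCentralSeries r, φ z = φ' z ^ (m ^ (r + 1)) := by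
  intro r
  induction r with
  | zero =>
    intro Q _ P _ φ φ' hQ h z _
    have h1 : commutator Q = ⊥ := by
      rw [← hQ, zero_add, top_lowerCentralSeries_one]
    have h2 := h z
    rw [h1, mem_bot, mul_inv_eq_one] at h2
    rw [h2]; simp
  | succ r ih =>
    intro Q _ P _ φ φ' hQ h
    set N : Subgroup Q := (⊤ : Subgroup Q).lowerCentralSeries (r + 1) with hN
    have hNc : N ≤ center Q := lcs_le_center hQ
    have hNn : N.Normal := by rw [hN]; infer_instance
    have hquot : (⊤ : Subgroup (Q ⧸ N)).lowerCentralSeries (r + 1) = ⊥ := lcs_quot N (le_of_eq hN.symm)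
    have hcd := lcs_comm_derived r hQ
    have ih' := ih (Q ⧸ N) P ((QuotientGroup.mk' N).comp φ) ((QuotientGroup.mk' N).comp φ') hquot
      (by
        intro g
        have := h g
        have h3 : (QuotientGroup.mk' N) (φ g * (φ' g ^ m)⁻¹) ∈ commutator (Q ⧸ N) := by
          have := map_lcs_mem (QuotientGroup.mk' N) 1 (z := φ g * (φ' g ^ m)⁻¹)
            (by rw [top_lowerCentralSeries_one]; exact this)
          rwa [top_lowerCentralSeries_one] at this
        simpa using h3)
    let E : Subgroup P :=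
      { carrier := {z | φ' z ∈ center Q ∧ φ z = φ' z ^ (m ^ (r + 1 + 1))}
        one_mem' := by simp [one_mem]
        mul_mem' := by
          rintro a b ⟨ha1, ha2⟩ ⟨hb1, hb2⟩
          refine ⟨?_, ?_⟩
          · rw [map_mul]; exact mul_mem ha1 hb1
          · rw [map_mul, map_mul, ha2, hb2]
            have hc : Commute (φ' a) (φ' b) := ((mem_center_iff.mp ha1) _).symm
            rw [hc.mul_pow]
        inv_mem' := by
          rintro a ⟨ha1, ha2⟩
          refine ⟨?_, ?_⟩
          · rw [map_inv]; exact inv_mem ha1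
          · rw [map_inv, map_inv, ha2, inv_pow] }
    have hE : (⊤ : Subgroup P).lowerCentralSeries (r + 1) ≤ E := by
      rw [Subgroup.lowerCentralSeries_succ, commutator_le]
      intro a ha g _
      have hA : φ' a ∈ (⊤ : Subgroup Q).lowerCentralSeries r := map_lcs_mem φ' r ha
      have hcen : ∀ y : Q, ∀ x : Q, x * ⁅φ' a, y⁆ = ⁅φ' a, y⁆ * x := by
        intro y x
        have : ⁅φ' a, y⁆ ∈ N := by
          rw [hN, Subgroup.lowerCentralSeries_succ]
          exact commutator_mem_commutator hA (mem_top y)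
        exact mem_center_iff.mp (hNc this) x
      refine ⟨?_, ?_⟩
      · rw [map_commutatorElement]
        exact mem_center_iff.mpr (hcen (φ' g))
      · rw [map_commutatorElement, map_commutatorElement]
        set M := m ^ (r + 1) with hM
        have h4 : (φ' a ^ M)⁻¹ * φ a ∈ N := by
          have := ih' a ha
          simp only [MonoidHom.comp_apply, QuotientGroup.mk'_apply] at this
          rw [← QuotientGroup.mk_pow] at this
          exact QuotientGroup.eq.mp this.symm
        obtain ⟨b, hb⟩ : ∃ b, b = (φ' a ^ M)⁻¹ * φ a := ⟨_, rfl⟩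
        obtain ⟨k, hk⟩ : ∃ k, k = φ g * (φ' g ^ m)⁻¹ := ⟨_, rfl⟩
        have hbc : b ∈ center Q := by rw [hb]; exact hNc h4
        have hφa : φ a = φ' a ^ M * b := by rw [hb]; group
        have hφg : φ g = k * φ' g ^ m := by rw [hk]; group
        have hkc : k ∈ commutator Q := by rw [hk]; exact h g
        have hxk : ⁅φ' a ^ M, k⁆ = 1 := by
          have : ⁅φ' a ^ M, k⁆ ∈ ⁅(⊤ : Subgroup Q).lowerCentralSeries r, commutator Q⁆ :=
            commutator_mem_commutator (pow_mem hA M) hkc
          rw [hcd, mem_bot] at this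
          exact this
        have e1 : ⁅φ a, φ g⁆ = ⁅φ' a ^ M, φ g⁆ := by
          rw [hφa, commutatorElement_mul_left_eq_conj_mul]
          have : ⁅b, φ g⁆ = 1 := by
            rw [commutatorElement_eq_one_iff_mul_comm]
            exact ((mem_center_iff.mp hbc) _).symm
          rw [this]; group
        have e2 : ⁅φ' a ^ M, φ g⁆ = ⁅φ' a ^ M, φ' g ^ m⁆ := by
          rw [hφg, commutatorElement_mul_right_eq_mul_conj, hxk, one_mul]
          have hc2 : ⁅φ' a ^ M, φ' g ^ m⁆ ∈ center Q := by
            apply hNc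
            rw [hN, Subgroup.lowerCentralSeries_succ]
            exact commutator_mem_commutator (pow_mem hA M) (mem_top _)
          rw [mem_center_iff.mp hc2 k, mul_inv_cancel_right]
        rw [e1, e2, comm_pow_left (hcen _), comm_pow_right (hcen _), ← pow_mul, pow_succ m (r + 1)]
        congr 1
        rw [hM, mul_comm]
    intro z hz
    exact (hE hz).2

end Pool.Agent.RTN14
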