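import Pool.Agent.RTN14.Words

set_option autoImplicit false

namespace Pool.Agent.RTN14

open Subgroup
open scoped commutatorElement

/-- the group `H` satisfies the laws in `W` -/
def Sat (W : Set (FreeGroup ℕ)) (H : Type) [Group H] : Prop :=
  ∀ w ∈ W, ∀ θ : FreeGroup ℕ →* H, θ w = 1

/-- the verbal subgroup of the free group of countable rank given by the laws in `W` -/
def Verbal (W : Set (FreeGroup ℕ)) : Subgroup (FreeGroup ℕ) :=
  Subgroup.normalClosure {u : FreeGroup ℕ | ∃ w ∈ W, ∃ φ : FreeGroup ℕ →* FreeGroup ℕ, φ w = u}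

instance (W : Set (FreeGroup ℕ)) : (Verbal W).Normal := by
  unfold Verbal; infer_instance

/-- homomorphisms that agree on generators modulo commutators agree modulo commutators -/
theorem congr_mod_comm {P : Type} [Group P] (x : ℕ → P) (hgen : closure (Set.range x) = ⊤)
    (f g : P →* Abelianization P) (h : ∀ i, f (x i) = g (x i)) : f = g := by
  apply MonoidHom.eq_of_eqOn_dense hgen
  rintro _ ⟨i, rfl⟩
  exact h i

theorem mem_comm_of {P : Type} [Group P] {a b : P}
    (h : Abelianization.of a = Abelianization.of b) : a * b⁻¹ ∈ commutator P := by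
  have : (Abelianization.of (G := P)) (a * b⁻¹) = 1 := by
    rw [map_mul, map_inv, h, mul_inv_cancel]
  rwa [← MonoidHom.mem_ker, Abelianization.ker_of] at this

/-- The main step. -/
theorem step {P : Type} [Group P] [Group.IsNilpotent P] (hTF : TF P) (c : ℕ)
    (hc : (⊤ : Subgroup P).lowerCentralSeries (c + 1) = ⊥) (x : ℕ → P)
    (hgen : closure (Set.range x) = ⊤) (hfree : ∀ h : ℕ → P, ∃ φ : P →* P, ∀ i, φ (x i) = h i)
    (t : OC) (ht : t.weight < c + 1)
    (ih : ∀ (H : Type) [Group H], TF H → (⊤ : Subgroup H).lowerCentralSeries c = ⊥ →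
      ∀ f : P →* H, ∀ y : t.Leaf → P, f (t.eval y) = 1) :
    ∀ y : t.Leaf → P, t.eval y = 1 := by
  obtain ⟨δ, hδ⟩ := hfree (fun i => x i * x i)
  have hδ2 : ∀ g, δ g * (MonoidHom.id P g ^ 2)⁻¹ ∈ commutator P := by
    have h1 : (Abelianization.of (G := P)).comp δ
        = (powMonoidHom 2).comp (Abelianization.of (G := P)) := by
      apply congr_mod_comm x hgen
      intro i
      simp only [MonoidHom.comp_apply, powMonoidHom_apply, hδ, map_mul]
      rw [pow_two]
    intro g
    apply mem_comm_of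
    have h2 := DFunLike.congr_fun h1 g
    simp only [MonoidHom.comp_apply, powMonoidHom_apply] at h2
    rw [h2, MonoidHom.id_apply, map_pow]
  let K : Subgroup P :=
    { carrier := {z | z ∈ center P ∧ (∀ φ φ' : P →* P,
        (∀ g, φ g * (φ' g)⁻¹ ∈ commutator P) → φ z = φ' z) ∧ δ z = z ^ (2 ^ (c + 1))}
      one_mem' := ⟨one_mem _, fun _ _ _ => by simp, by simp⟩
      mul_mem' := by
        rintro a b ⟨ha1, ha2, ha3⟩ ⟨hb1, hb2, hb3⟩
        refine ⟨mul_mem ha1 hb1, fun φ φ' h => ?_, ?_⟩
        · rw [map_mul, map_mul, ha2 φ φ' h, hb2 φ φ' h]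
        · have hc : Commute a b := ((mem_center_iff.mp ha1) _).symm
          rw [map_mul, ha3, hb3, hc.mul_pow]
      inv_mem' := by
        rintro a ⟨ha1, ha2, ha3⟩
        refine ⟨inv_mem ha1, fun φ φ' h => ?_, ?_⟩
        · rw [map_inv, map_inv, ha2 φ φ' h]
        · rw [map_inv, ha3, inv_pow] }
  have hKc : K ≤ center P := fun z hz => hz.1
  have hKn : K.Normal := by
    constructor
    intro n hn g
    have : g * n * g⁻¹ = n := by rw [mem_center_iff.mp (hKc hn) g, mul_inv_cancel_right]
    rw [this]; exact hn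
  have hlK : (⊤ : Subgroup P).lowerCentralSeries c ≤ K := by
    intro z hz
    refine ⟨lcs_le_center hc hz, fun φ φ' h => ?_, ?_⟩
    · have := graded 1 c P P φ φ' hc (by simpa using h) z hz
      simpa using this
    · have := graded 2 c P P δ (MonoidHom.id P) hc hδ2 z hz
      simpa using this
  have hKi : ∀ z : P, ∀ n : ℕ, 0 < n → z ^ n ∈ K → z ∈ K := by
    rintro z n hn ⟨h1, h2, h3⟩
    refine ⟨center_isolated hTF hn h1, fun φ φ' h => ?_, ?_⟩
    · apply uroot P hTF _ _ n hn
      rw [← map_pow, ← map_pow, h2 φ φ' h]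
    · apply uroot P hTF _ _ n hn
      rw [← map_pow, h3, ← pow_mul, ← pow_mul, mul_comm]
  have hTFq : TF (P ⧸ K) := by
    intro h n hn hh
    obtain ⟨g, rfl⟩ := QuotientGroup.mk_surjective h
    rw [← QuotientGroup.mk_pow, QuotientGroup.eq_one_iff] at hh
    exact (QuotientGroup.eq_one_iff g).mpr (hKi g n hn hh)
  have hmem : ∀ y : t.Leaf → P, t.eval y ∈ K := by
    intro y
    have := ih (P ⧸ K) hTFq (lcs_quot K hlK) (QuotientGroup.mk' K) y
    exact (QuotientGroup.eq_one_iff _).mp this
  obtain ⟨e, he⟩ := t.exists_code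
  set z : P := t.eval (fun i => x (e i)) with hz
  have hcv : ∀ a ∈ CV t (fun i => x (e i)), a = z := by
    rintro _ ⟨d, rfl⟩
    obtain ⟨φ, hφ⟩ := hfree (Function.extend e (fun i => d i * x (e i) * (d i)⁻¹) x)
    have h1 : t.eval (fun i => d i * x (e i) * (d i)⁻¹) = φ z := by
      rw [hz, OC.map_eval]
      congr 1
      funext i
      rw [hφ, he.extend_apply]
    rw [h1]
    have h2 : ∀ g, φ g * (MonoidHom.id P g)⁻¹ ∈ commutator P := by
      have h3 : (Abelianization.of (G := P)).comp φ = Abelianization.of (G := P) := by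
        apply congr_mod_comm x hgen
        intro j
        rw [MonoidHom.comp_apply, hφ]
        by_cases hj : ∃ i, e i = j
        · obtain ⟨i, rfl⟩ := hj
          rw [he.extend_apply, map_mul, map_mul, map_inv, mul_comm (Abelianization.of (d i)),
            mul_inv_cancel_right]
        · rw [Function.extend_apply' _ _ _ hj]
      intro g
      apply mem_comm_of
      exact DFunLike.congr_fun h3 g
    exact (hmem _).2.1 φ (MonoidHom.id P) h2
  have h1 : δ z = z ^ (2 ^ t.weight) := by
    have h2 : δ z = t.eval (fun i => x (e i) * x (e i)) := by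
      rw [hz, OC.map_eval]
      congr 1
      funext i
      rw [hδ]
    have h3 := eval_sq t (fun i => x (e i))
    obtain ⟨l, hl1, hl2, hl3⟩ := h3
    rw [h2, ← hl3, List.prod_eq_pow_card l z (fun a ha => hcv a (hl2 a ha)), hl1]
  have h2 : δ z = z ^ (2 ^ (c + 1)) := (hmem _).2.2
  have hlt : 2 ^ t.weight < 2 ^ (c + 1) := Nat.pow_lt_pow_right (by norm_num) ht
  have h3 : z ^ (2 ^ (c + 1) - 2 ^ t.weight) = 1 := by
    have h4 : z ^ (2 ^ (c + 1)) = z ^ (2 ^ (c + 1) - 2 ^ t.weight) * z ^ (2 ^ t.weight) := by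
      rw [← pow_add]; congr 1; omega
    rw [← h2, h1] at h4
    exact (mul_eq_right.mp h4.symm)
  have hz1 : z = 1 := hTF z _ (by omega) h3
  intro y
  obtain ⟨φ, hφ⟩ := hfree (Function.extend e y 1)
  have : t.eval y = φ z := by
    rw [hz, OC.map_eval]
    congr 1
    funext i
    rw [hφ, he.extend_apply]
  rw [this, hz1, map_one]

/-- the free group of countable rank of the variety given by the laws in `W` -/
abbrev Rel (W : Set (FreeGroup ℕ)) : Type := FreeGroup ℕ ⧸ Verbal W

theorem verbal_le_ker {W : Set (FreeGroup ℕ)} {H : Type} [Group H] (hH : Sat W H)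
    (θ : FreeGroup ℕ →* H) : Verbal W ≤ θ.ker := by
  unfold Verbal
  apply Subgroup.normalClosure_le_normal
  rintro _ ⟨w, hw, φ, rfl⟩
  exact hH w hw (θ.comp φ)

/-- a homomorphism from the relatively free group with given values on the generators -/
theorem exists_hom {W : Set (FreeGroup ℕ)} {H : Type} [Group H] (hH : Sat W H) (h : ℕ → H) :
    ∃ f : Rel W →* H, ∀ i, f (QuotientGroup.mk (FreeGroup.of i)) = h i := by
  refine ⟨QuotientGroup.lift (Verbal W) (FreeGroup.lift h) ?_, ?_⟩
  · intro a ha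
    exact verbal_le_ker hH (FreeGroup.lift h) ha
  · intro i
    rw [QuotientGroup.lift_mk]
    simp

theorem sat_rel (W : Set (FreeGroup ℕ)) : Sat W (Rel W) := by
  intro w hw θ
  have hs : ∀ i, ∃ a : FreeGroup ℕ, (QuotientGroup.mk a : Rel W) = θ (FreeGroup.of i) :=
    fun i => QuotientGroup.mk_surjective _
  choose a ha using hs
  have h1 : θ = (QuotientGroup.mk' (Verbal W)).comp (FreeGroup.lift a) := by
    ext i
    simp [ha]
  rw [h1, MonoidHom.comp_apply]
  apply (QuotientGroup.eq_one_iff _).mpr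
  exact Subgroup.subset_normalClosure ⟨w, hw, FreeGroup.lift a, rfl⟩

/-- a homomorphic image of the relatively free group satisfies the laws -/
theorem sat_range {W : Set (FreeGroup ℕ)} {H : Type} [Group H] (f : Rel W →* H) :
    Sat W f.range := by
  intro w hw θ
  have hs : ∀ i, ∃ a : Rel W, f.rangeRestrict a = θ (FreeGroup.of i) :=
    fun i => f.rangeRestrict_surjective _
  choose a ha using hs
  have h1 : θ = f.rangeRestrict.comp (FreeGroup.lift a) := by
    ext i
    simp only [MonoidHom.comp_apply, FreeGroup.lift_apply_of, ha]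
  rw [h1, MonoidHom.comp_apply, sat_rel W w hw (FreeGroup.lift a), map_one]

theorem gen_rel (W : Set (FreeGroup ℕ)) :
    closure (Set.range (fun i : ℕ => (QuotientGroup.mk (FreeGroup.of i) : Rel W))) = ⊤ := by
  have h1 := FreeGroup.closure_range_of ℕ
  have h2 := congrArg (Subgroup.map (QuotientGroup.mk' (Verbal W))) h1
  rw [MonoidHom.map_closure, ← Set.range_comp, ← MonoidHom.range_eq_map,
    MonoidHom.range_eq_top.mpr (QuotientGroup.mk'_surjective _)] at h2
  exact h2

/-- the words `t` vanish in all torsion-free nilpotent images of class at most `c` -/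
def Good (W : Set (FreeGroup ℕ)) (t : OC) (c : ℕ) : Prop :=
  ∀ (H : Type) [Group H], TF H → (⊤ : Subgroup H).lowerCentralSeries c = ⊥ →
    ∀ f : Rel W →* H, ∀ y : t.Leaf → Rel W, f (t.eval y) = 1

theorem good_of_le {W : Set (FreeGroup ℕ)} {t : OC}
    (h : ∀ (H : Type) [Group H], TF H → (⊤ : Subgroup H).lowerCentralSeries t.weight = ⊥ →
      Sat W H → ∀ y : t.Leaf → H, t.eval y = 1) {c : ℕ} (hc : c ≤ t.weight) : Good W t c := by
  intro H _ hTF hl f y
  have h1 : TF f.range := by
    intro g n hn hg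
    apply Subtype.ext
    apply hTF _ n hn
    rw [← Subgroup.coe_pow, hg]; rfl
  have h2 : (⊤ : Subgroup f.range).lowerCentralSeries t.weight = ⊥ := by
    rw [← Subgroup.map_subtype_inj, Subgroup.map_bot, Subgroup.top_subtype_lowerCentralSeries,
      eq_bot_iff]
    refine (Subgroup.lowerCentralSeries_mono t.weight le_top).trans ?_
    exact (Subgroup.lowerCentralSeries_antitone _ hc).trans hl.le
  have h3 := h f.range h1 h2 (sat_range f) (fun i => f.rangeRestrict (y i))
  rw [← OC.map_eval] at h3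
  exact congrArg Subtype.val h3

/-- the largest torsion-free nilpotent quotient of class at most `c`: its kernel -/
def Ker (W : Set (FreeGroup ℕ)) (c : ℕ) : Subgroup (Rel W) where
  carrier := {g | ∀ (H : Type) [Group H], TF H → (⊤ : Subgroup H).lowerCentralSeries c = ⊥ →
    ∀ f : Rel W →* H, f g = 1}
  one_mem' := fun _ _ _ _ f => map_one f
  mul_mem' := fun {a b} ha hb H _ h1 h2 f => by rw [map_mul, ha H h1 h2 f, hb H h1 h2 f, mul_one]
  inv_mem' := fun {a} ha H _ h1 h2 f => by rw [map_inv, ha H h1 h2 f, inv_one]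

instance (W : Set (FreeGroup ℕ)) (c : ℕ) : (Ker W c).Normal := by
  constructor
  intro n hn g H _ h1 h2 f
  rw [map_mul, map_mul, hn H h1 h2 f, mul_one, map_inv, mul_inv_cancel]

theorem tf_ker (W : Set (FreeGroup ℕ)) (c : ℕ) : TF (Rel W ⧸ Ker W c) := by
  intro h n hn hh
  obtain ⟨g, rfl⟩ := QuotientGroup.mk_surjective h
  rw [← QuotientGroup.mk_pow, QuotientGroup.eq_one_iff] at hh
  rw [QuotientGroup.eq_one_iff]
  intro H _ h1 h2 f
  apply h1 _ n hn
  rw [← map_pow]
  exact hh H h1 h2 f

theorem lcs_ker (W : Set (FreeGroup ℕ)) (c : ℕ) :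
    (⊤ : Subgroup (Rel W ⧸ Ker W c)).lowerCentralSeries c = ⊥ := by
  apply lcs_quot
  intro z hz H _ _ h2 f
  have := map_lcs_mem f c hz
  rw [h2, Subgroup.mem_bot] at this
  exact this

theorem good_succ {W : Set (FreeGroup ℕ)} {t : OC} {c : ℕ} (hc : t.weight < c + 1)
    (h : Good W t c) : Good W t (c + 1) := by
  have hnil : Group.IsNilpotent (Rel W ⧸ Ker W (c + 1)) :=
    Subgroup.nilpotent_iff_lowerCentralSeries.mpr ⟨c + 1, lcs_ker W (c + 1)⟩
  have key := step (P := Rel W ⧸ Ker W (c + 1)) (tf_ker W (c + 1)) c (lcs_ker W (c + 1))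
    (fun i => QuotientGroup.mk (QuotientGroup.mk (FreeGroup.of i) : Rel W))
    (by
      have h2 := congrArg (Subgroup.map (QuotientGroup.mk' (Ker W (c + 1)))) (gen_rel W)
      rw [MonoidHom.map_closure, ← Set.range_comp, ← MonoidHom.range_eq_map,
        MonoidHom.range_eq_top.mpr (QuotientGroup.mk'_surjective _)] at h2
      exact h2)
    (by
      intro p
      have hs : ∀ i, ∃ a : Rel W, (QuotientGroup.mk a : Rel W ⧸ Ker W (c + 1)) = p i :=
        fun i => QuotientGroup.mk_surjective _
      choose a ha using hs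
      obtain ⟨φ, hφ⟩ := exists_hom (sat_rel W) a
      refine ⟨QuotientGroup.map (Ker W (c + 1)) (Ker W (c + 1)) φ ?_, ?_⟩
      · intro z hz H _ h1 h2 f
        exact hz H h1 h2 (f.comp φ)
      · intro i
        rw [QuotientGroup.map_mk, hφ, ha])
    t hc
    (by
      intro H _ h1 h2 f y
      have hs : ∀ i, ∃ a : Rel W, (QuotientGroup.mk a : Rel W ⧸ Ker W (c + 1)) = y i :=
        fun i => QuotientGroup.mk_surjective _
      choose a ha using hs
      have h3 := h H h1 h2 (f.comp (QuotientGroup.mk' (Ker W (c + 1)))) a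
      rw [MonoidHom.comp_apply, OC.map_eval] at h3
      have h4 : (fun i => (QuotientGroup.mk' (Ker W (c + 1))) (a i)) = y := funext ha
      rwa [h4] at h3)
  intro H _ h1 h2 f y
  have h3 := key (fun i => QuotientGroup.mk (y i))
  have h4 : t.eval (fun i => (QuotientGroup.mk (y i) : Rel W ⧸ Ker W (c + 1)))
      = QuotientGroup.mk (t.eval y) :=
    (OC.map_eval (QuotientGroup.mk' (Ker W (c + 1))) t y).symm
  rw [h4, QuotientGroup.eq_one_iff] at h3
  exact h3 H h1 h2 f

theorem good_all {W : Set (FreeGroup ℕ)} {t : OC}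
    (h : ∀ (H : Type) [Group H], TF H → (⊤ : Subgroup H).lowerCentralSeries t.weight = ⊥ →
      Sat W H → ∀ y : t.Leaf → H, t.eval y = 1) : ∀ c : ℕ, Good W t c := by
  intro c
  induction c with
  | zero => exact good_of_le h (Nat.zero_le _)
  | succ c ih =>
    by_cases hc : c + 1 ≤ t.weight
    · exact good_of_le h hc
    · exact good_succ (by omega) ih

/-- residually torsion-free nilpotent -/
def ResTFN (G : Type) [Group G] : Prop :=
  ∀ x : G, x ≠ 1 → ∃ (H : Type) (_ : Group H), Group.IsNilpotent H ∧ TF H ∧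
    ∃ f : G →* H, f x ≠ 1

theorem criterion {W : Set (FreeGroup ℕ)} (hres : ResTFN (Rel W)) (t : OC)
    (h : ∀ (H : Type) [Group H], TF H → (⊤ : Subgroup H).lowerCentralSeries t.weight = ⊥ →
      Sat W H → ∀ y : t.Leaf → H, t.eval y = 1) : ∀ y : t.Leaf → Rel W, t.eval y = 1 := by
  intro y
  by_contra hne
  obtain ⟨H, hG, hnil, hTF, f, hf⟩ := hres _ hne
  obtain ⟨c, hc⟩ := Subgroup.nilpotent_iff_lowerCentralSeries.mp hnil
  exact hf (good_all h c H hTF hc f y)

/-- laws of the relatively free group are laws of all groups satisfying `W` -/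
theorem law_transfer {W : Set (FreeGroup ℕ)} (t : OC)
    (h : ∀ y : t.Leaf → Rel W, t.eval y = 1) (H : Type) [Group H] (hH : Sat W H)
    (y : t.Leaf → H) : t.eval y = 1 := by
  obtain ⟨e, he⟩ := t.exists_code
  obtain ⟨f, hf⟩ := exists_hom hH (Function.extend e y 1)
  have h1 := h (fun i => QuotientGroup.mk (FreeGroup.of (e i)))
  have h2 := congrArg f h1
  rw [map_one, OC.map_eval] at h2
  rw [← h2]
  congr 1
  funext i
  rw [hf, he.extend_apply]

theorem derived_criterion {W : Set (FreeGroup ℕ)} (hres : ResTFN (Rel W)) (d : ℕ)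
    (h : ∀ (H : Type) [Group H], TF H → (⊤ : Subgroup H).lowerCentralSeries (2 ^ d) = ⊥ →
      Sat W H → derivedSeries H d = ⊥) : derivedSeries (Rel W) d = ⊥ := by
  apply derivedSeries_eq_bot
  apply criterion hres
  intro H _ h1 h2 h3 y
  rw [OC.weight_derived] at h2
  have := h H h1 h2 h3
  have h4 := eval_mem_derivedSeries d y
  rw [this, Subgroup.mem_bot] at h4
  exact h4

theorem derived_transfer {W : Set (FreeGroup ℕ)} (d : ℕ) (h : derivedSeries (Rel W) d = ⊥)
    (H : Type) [Group H] (hH : Sat W H) : derivedSeries H d = ⊥ := by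
  apply derivedSeries_eq_bot
  apply law_transfer _ _ H hH
  intro y
  have h4 := eval_mem_derivedSeries d y
  rw [h, Subgroup.mem_bot] at h4
  exact h4

/-- a law `t ^ k * g` with `g` in the next term of the lower central series forces the law `t` -/
theorem leading {W : Set (FreeGroup ℕ)} (hres : ResTFN (Rel W)) (t : OC) (e : t.Leaf → ℕ)
    (he : Function.Injective e) (k : ℕ) (hk : 0 < k) (g : FreeGroup ℕ)
    (hg : g ∈ (⊤ : Subgroup (FreeGroup ℕ)).lowerCentralSeries t.weight)
    (hw : t.eval (fun i => FreeGroup.of (e i)) ^ k * g ∈ Verbal W) :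
    ∀ y : t.Leaf → Rel W, t.eval y = 1 := by
  apply criterion hres
  intro H _ h1 h2 h3 y
  obtain ⟨θ, hθ⟩ : ∃ θ : FreeGroup ℕ →* H, ∀ i, θ (FreeGroup.of (e i)) = y i :=
    ⟨FreeGroup.lift (Function.extend e y 1), fun i => by
      rw [FreeGroup.lift_apply_of, he.extend_apply]⟩
  have h4 : θ (t.eval (fun i => FreeGroup.of (e i)) ^ k * g) = 1 := verbal_le_ker h3 θ hw
  have h5 : θ g = 1 := by
    have := map_lcs_mem θ t.weight hg
    rwa [h2, Subgroup.mem_bot] at this
  rw [map_mul, map_pow, OC.map_eval, h5, mul_one] at h4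
  simp only [hθ] at h4
  exact h1 _ k hk h4

end Pool.Agent.RTN14
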