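import Pool.Agent.RTN14.Graded

set_option autoImplicit false

namespace Pool.Agent.RTN14

open Subgroup
open scoped commutatorElement

universe u v

/-- Outer commutator words (multilinear commutators), as binary trees: `var` is the word `x`, and
`comm a b` is the commutator of the words `a` and `b` in disjoint sets of variables. -/
inductive OC : Type
  | var : OC
  | comm : OC → OC → OC

namespace OC

/-- the weight of an outer commutator word: its number of variables -/
def weight : OC → ℕ
  | var => 1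
  | comm a b => a.weight + b.weight

/-- the variables of an outer commutator word (the leaves of the tree) -/
def Leaf : OC → Type
  | var => Unit
  | comm a b => a.Leaf ⊕ b.Leaf

/-- the value of the word at an assignment of group elements to its variables -/
def eval {G : Type u} [Group G] : (t : OC) → (t.Leaf → G) → G
  | var, x => x ()
  | comm a b, x => ⁅a.eval (fun i => x (Sum.inl i)), b.eval (fun i => x (Sum.inr i))⁆

/-- the derived words: `x`, `[x, y]`, `[[x, y], [z, t]]`, ... -/
def derived : ℕ → OC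
  | 0 => var
  | d + 1 => comm (derived d) (derived d)

theorem weight_derived (d : ℕ) : (derived d).weight = 2 ^ d := by
  induction d with
  | zero => rfl
  | succ d ih => show (derived d).weight + (derived d).weight = _; rw [ih]; ring

theorem countable_leaf : ∀ t : OC, Countable t.Leaf
  | var => (inferInstance : Countable Unit)
  | comm a b => by
      have := countable_leaf a
      have := countable_leaf b
      exact (inferInstance : Countable (a.Leaf ⊕ b.Leaf))

theorem exists_code (t : OC) : ∃ e : t.Leaf → ℕ, Function.Injective e := by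
  have := countable_leaf t
  exact exists_injective_nat t.Leaf

theorem map_eval {G : Type u} {H : Type v} [Group G] [Group H] (f : G →* H) :
    ∀ (t : OC) (x : t.Leaf → G), f (t.eval x) = t.eval (fun i => f (x i))
  | var, _ => rfl
  | comm a b, x => by
      show f ⁅_, _⁆ = ⁅_, _⁆
      rw [map_commutatorElement, map_eval f a, map_eval f b]

theorem conj_eval {G : Type u} [Group G] (u : G) (t : OC) (x : t.Leaf → G) :
    t.eval (fun i => u * x i * u⁻¹) = u * t.eval x * u⁻¹ := by
  have := map_eval (MulAut.conj u).toMonoidHom t x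
  simpa using this.symm

end OC

/-- products of exactly `k` elements of `S` -/
def PP {G : Type u} [Group G] (S : Set G) (k : ℕ) : Set G :=
  {g | ∃ l : List G, l.length = k ∧ (∀ a ∈ l, a ∈ S) ∧ l.prod = g}

theorem PP_mono {G : Type u} [Group G] {S T : Set G} (h : S ⊆ T) {k : ℕ} {g : G}
    (hg : g ∈ PP S k) : g ∈ PP T k := by
  obtain ⟨l, h1, h2, h3⟩ := hg
  exact ⟨l, h1, fun a ha => h (h2 a ha), h3⟩

theorem PP_mul {G : Type u} [Group G] {S : Set G} {j k : ℕ} {g h : G}
    (hg : g ∈ PP S j) (hh : h ∈ PP S k) : g * h ∈ PP S (j + k) := by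
  obtain ⟨l, h1, h2, h3⟩ := hg
  obtain ⟨m, h4, h5, h6⟩ := hh
  refine ⟨l ++ m, by simp [h1, h4], ?_, by simp [h3, h6]⟩
  intro a ha
  rcases List.mem_append.mp ha with h | h
  · exact h2 a h
  · exact h5 a h

theorem PP_one {G : Type u} [Group G] {S : Set G} {g : G} (hg : g ∈ S) : g ∈ PP S 1 :=
  ⟨[g], rfl, by simpa using hg, by simp⟩

theorem PP_conj {G : Type u} [Group G] {S : Set G} (hS : ∀ u : G, ∀ a ∈ S, u * a * u⁻¹ ∈ S)
    (u : G) {k : ℕ} {g : G} (hg : g ∈ PP S k) : u * g * u⁻¹ ∈ PP S k := by
  obtain ⟨l, h1, h2, h3⟩ := hg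
  refine ⟨l.map (fun a => u * a * u⁻¹), by simp [h1], ?_, ?_⟩
  · intro a ha
    obtain ⟨b, hb, rfl⟩ := List.mem_map.mp ha
    exact hS u b (h2 b hb)
  · have := map_list_prod (MulAut.conj u) l
    simp only [MulAut.conj_apply] at this
    rw [← h3, this]
    congr 1

/-- commutators of elements of two sets -/
def CC {G : Type u} [Group G] (S T : Set G) : Set G := {g | ∃ a ∈ S, ∃ b ∈ T, g = ⁅a, b⁆}

theorem CC_conj {G : Type u} [Group G] {S T : Set G} (hS : ∀ u : G, ∀ a ∈ S, u * a * u⁻¹ ∈ S)
    (hT : ∀ u : G, ∀ a ∈ T, u * a * u⁻¹ ∈ T) : ∀ u : G, ∀ a ∈ CC S T, u * a * u⁻¹ ∈ CC S T := by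
  rintro u _ ⟨a, ha, b, hb, rfl⟩
  exact ⟨_, hS u a ha, _, hT u b hb, conjugate_commutatorElement _ _ _⟩

theorem comm_PP_right {G : Type u} [Group G] {S T : Set G}
    (hS : ∀ u : G, ∀ a ∈ S, u * a * u⁻¹ ∈ S) (hT : ∀ u : G, ∀ a ∈ T, u * a * u⁻¹ ∈ T)
    {a : G} (ha : a ∈ S) : ∀ (l : List G), (∀ b ∈ l, b ∈ T) → ⁅a, l.prod⁆ ∈ PP (CC S T) l.length
  | [], _ => ⟨[], rfl, by simp, by simp⟩
  | b :: l, h => by
      rw [List.prod_cons, commutatorElement_mul_right_eq_mul_conj, List.length_cons, add_comm,
        mul_assoc (⁅a, b⁆ : G), mul_assoc (⁅a, b⁆ : G)]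
      exact PP_mul (PP_one ⟨a, ha, b, h b (by simp), rfl⟩)
        (PP_conj (CC_conj hS hT) b (comm_PP_right hS hT ha l (fun c hc => h c (by simp [hc]))))

theorem comm_PP_left {G : Type u} [Group G] {S T : Set G}
    (hS : ∀ u : G, ∀ a ∈ S, u * a * u⁻¹ ∈ S) (hT : ∀ u : G, ∀ a ∈ T, u * a * u⁻¹ ∈ T)
    (m : List G) (hm : ∀ b ∈ m, b ∈ T) : ∀ (l : List G), (∀ b ∈ l, b ∈ S) →
    ⁅l.prod, m.prod⁆ ∈ PP (CC S T) (l.length * m.length)
  | [], _ => ⟨[], by simp, by simp, by simp⟩
  | a :: l, h => by
      rw [List.prod_cons, commutatorElement_mul_left_eq_conj_mul, List.length_cons, add_mul,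
        one_mul]
      exact PP_mul (PP_conj (CC_conj hS hT) a
        (comm_PP_left hS hT m hm l (fun c hc => h c (by simp [hc]))))
        (comm_PP_right hS hT (h a (by simp)) m hm)

theorem comm_PP {G : Type u} [Group G] {S T : Set G}
    (hS : ∀ u : G, ∀ a ∈ S, u * a * u⁻¹ ∈ S) (hT : ∀ u : G, ∀ a ∈ T, u * a * u⁻¹ ∈ T)
    {j k : ℕ} {g h : G} (hg : g ∈ PP S j) (hh : h ∈ PP T k) : ⁅g, h⁆ ∈ PP (CC S T) (j * k) := by
  obtain ⟨l, h1, h2, h3⟩ := hg
  obtain ⟨m, h4, h5, h6⟩ := hh
  rw [← h1, ← h4, ← h3, ← h6]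
  exact comm_PP_left hS hT m h5 l h2

/-- values of the word at conjugates of the given elements, each conjugated separately -/
def CV {G : Type u} [Group G] (t : OC) (y : t.Leaf → G) : Set G :=
  {g | ∃ c : t.Leaf → G, g = t.eval (fun i => c i * y i * (c i)⁻¹)}

theorem CV_conj {G : Type u} [Group G] (t : OC) (y : t.Leaf → G) :
    ∀ u : G, ∀ a ∈ CV t y, u * a * u⁻¹ ∈ CV t y := by
  rintro u _ ⟨c, rfl⟩
  refine ⟨fun i => u * c i, ?_⟩
  rw [← OC.conj_eval]
  congr 1
  funext i
  group

/-- the value at squares is a product of `2 ^ weight` values at conjugates -/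
theorem eval_sq {G : Type u} [Group G] : ∀ (t : OC) (y : t.Leaf → G),
    t.eval (fun i => y i * y i) ∈ PP (CV t y) (2 ^ t.weight)
  | .var, y => by
      refine ⟨[y (), y ()], rfl, ?_, by simp [OC.eval]⟩
      intro a ha
      have : a = y () := by simpa using ha
      exact ⟨fun _ => 1, by rw [this]; simp [OC.eval]⟩
  | .comm a b, y => by
      have h1 := eval_sq a (fun i => y (Sum.inl i))
      have h2 := eval_sq b (fun i => y (Sum.inr i))
      have h3 := comm_PP (CV_conj a _) (CV_conj b _) h1 h2
      have h4 : 2 ^ (OC.comm a b).weight = 2 ^ a.weight * 2 ^ b.weight := by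
        show 2 ^ (a.weight + b.weight) = _
        rw [pow_add]
      rw [h4]
      refine PP_mono ?_ h3
      rintro _ ⟨α, ⟨c, rfl⟩, β, ⟨c', rfl⟩, rfl⟩
      exact ⟨Sum.elim c c', rfl⟩

/-- values of the derived words generate the derived series -/
theorem derivedSeries_le (G : Type u) [Group G] (d : ℕ) :
    derivedSeries G d ≤ closure {g | ∃ y : (OC.derived d).Leaf → G, g = (OC.derived d).eval y} := by
  induction d with
  | zero =>
    intro g _
    exact subset_closure ⟨fun _ => g, rfl⟩
  | succ d ih =>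
    set S : Set G := {g | ∃ y : (OC.derived d).Leaf → G, g = (OC.derived d).eval y} with hSdef
    have hS : ∀ u : G, ∀ a ∈ S, u * a * u⁻¹ ∈ S := by
      rintro u _ ⟨y, rfl⟩
      exact ⟨fun i => u * y i * u⁻¹, (OC.conj_eval u _ y).symm⟩
    have hU : CC S S ⊆ {g | ∃ y : (OC.derived (d + 1)).Leaf → G,
        g = (OC.derived (d + 1)).eval y} := by
      rintro _ ⟨_, ⟨y, rfl⟩, _, ⟨y', rfl⟩, rfl⟩
      exact ⟨Sum.elim y y', rfl⟩
    have hN : (closure (CC S S)).Normal := by
      constructor
      intro n hn g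
      induction hn using closure_induction with
      | mem x hx => exact subset_closure (CC_conj hS hS g x hx)
      | one => simp
      | mul x y _ _ hx hy =>
        have : g * (x * y) * g⁻¹ = (g * x * g⁻¹) * (g * y * g⁻¹) := by group
        rw [this]; exact mul_mem hx hy
      | inv x _ hx =>
        have : g * x⁻¹ * g⁻¹ = (g * x * g⁻¹)⁻¹ := by group
        rw [this]; exact inv_mem hx
    refine le_trans ?_ (closure_mono hU)
    rw [derivedSeries_succ, commutator_le]
    intro g₁ h₁ g₂ h₂
    have h₁' := ih h₁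
    have h₂' := ih h₂
    clear h₁ h₂
    induction h₁' using closure_induction with
    | mem a ha =>
      induction h₂' using closure_induction with
      | mem b hb => exact subset_closure ⟨a, ha, b, hb, rfl⟩
      | one => simp
      | mul x y _ _ hx hy =>
        rw [commutatorElement_mul_right_eq_mul_conj, mul_assoc (⁅a, x⁆ : G), mul_assoc (⁅a, x⁆ : G)]
        exact mul_mem hx (hN.conj_mem _ hy _)
      | inv x _ hx =>
        rw [commutatorElement_inv_right, ← commutatorElement_inv a x]
        have := hN.conj_mem _ (inv_mem hx) x⁻¹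
        rwa [inv_inv] at this
    | one => simp
    | mul x y _ _ hx hy =>
      rw [commutatorElement_mul_left_eq_conj_mul]
      exact mul_mem (hN.conj_mem _ hy _) hx
    | inv x _ hx =>
      rw [commutatorElement_inv_left, ← commutatorElement_inv x g₂]
      have := hN.conj_mem _ (inv_mem hx) x⁻¹
      rwa [inv_inv] at this

theorem derivedSeries_eq_bot {G : Type u} [Group G] {d : ℕ}
    (h : ∀ y : (OC.derived d).Leaf → G, (OC.derived d).eval y = 1) : derivedSeries G d = ⊥ := by
  rw [eq_bot_iff]
  refine (derivedSeries_le G d).trans ?_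
  rw [closure_le]
  rintro _ ⟨y, rfl⟩
  exact h y

theorem eval_mem_derivedSeries {G : Type u} [Group G] : ∀ (d : ℕ)
    (y : (OC.derived d).Leaf → G), (OC.derived d).eval y ∈ derivedSeries G d
  | 0, _ => by rw [derivedSeries_zero]; exact mem_top _
  | d + 1, _ => by
      rw [derivedSeries_succ]
      exact commutator_mem_commutator (eval_mem_derivedSeries d _) (eval_mem_derivedSeries d _)

end Pool.Agent.RTN14
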